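import Mathlib

set_option autoImplicit false

namespace Pool.Agent.Results.MP_ebdc6e_an.OrTwo

open Set Filter Topology MeasureTheory
open scoped ENNReal NNReal

/-- the sign `1` or `-1` attached to a bit -/
def sg (b : Bool) : ℝ := if b then 1 else -1

/-- the mean of `g` under the uniform measure on the cube -/
noncomputable def avg {n : ℕ} (g : (Fin n → Bool) → ℝ) : ℝ := (∑ z, g z) / 2 ^ n

/-- the variance of the `±1`-valued function given by `f` -/
noncomputable def var {n : ℕ} (f : (Fin n → Bool) → Bool) : ℝ :=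
  avg fun z => (sg (f z) - avg fun y => sg (f y)) ^ 2

/-- the influence of coordinate `i` -/
noncomputable def inf {n : ℕ} (f : (Fin n → Bool) → Bool) (i : Fin n) : ℝ :=
  avg fun z => if f z ≠ f (Function.update z i (!z i)) then 1 else 0

/-- a discrete time fractional query algorithm with process `X`, terminal value the sign vector
of `Z` and finite stopping time `τ`, all with respect to the natural filtration of `X` -/
structure IsFracAlg {n : ℕ} {Ω : Type} [MeasurableSpace Ω] (P : Measure Ω)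
    (X : ℕ → Ω → Fin n → ℝ) (hX : ∀ t, StronglyMeasurable (X t)) (Z : Ω → Fin n → Bool)
    (τ : Ω → ℕ) : Prop where
  mem : ∀ t ω i, X t ω i ∈ Icc (-1 : ℝ) 1
  zero : ∀ ω, X 0 ω = 0
  mart : Martingale X (Filtration.natural X hX) P
  lim : ∀ ω, Tendsto (fun t => X t ω) atTop (𝓝 fun i => sg (Z ω i))
  meas : Measurable Z
  law : ∀ z, P {ω | Z ω = z} = 1 / 2 ^ n
  stop : IsStoppingTime (Filtration.natural X hX) fun ω => (τ ω : WithTop ℕ)
  prod : ∀ S : Finset (Fin n),
    Martingale (fun t ω => ∏ i ∈ S, X t ω i) (Filtration.natural X hX) P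

abbrev Om : Type := Fin 3 × Bool

noncomputable def w (ω : Om) : ℝ≥0 := if ω.1 = 0 then 1 / 6 else if ω.1 = 1 then 1 / 12 else 1 / 4

noncomputable def P : Measure Om := ∑ ω, w ω • Measure.dirac ω

theorem P_apply (s : Set Om) : P s = ∑ ω, (w ω : ℝ≥0∞) * s.indicator 1 ω := by
  simp only [P, Measure.finsetSum_apply, Measure.smul_apply, Measure.dirac_apply]
  rfl

theorem P_prob : IsProbabilityMeasure P := ⟨by
  rw [P_apply]
  simp only [indicator_univ, Pi.one_apply, mul_one, ← ENNReal.ofNNReal_finsetSum, ENNReal.coe_eq_one]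
  apply NNReal.eq
  simp [Fintype.sum_prod_type, Fin.sum_univ_three, w]
  norm_num⟩

theorem P_int {E : Type} [NormedAddCommGroup E] [NormedSpace ℝ E] [CompleteSpace E] (g : Om → E) :
    ∫ ω, g ω ∂P = ∑ ω, (w ω : ℝ) • g ω := by
  rw [P, integral_finsetSum_measure fun _ _ => Integrable.of_finite]
  simp [NNReal.smul_def]

noncomputable def X (t : ℕ) (ω : Om) : Fin 2 → ℝ :=
  ![if t = 0 then 0 else if ω.1 = 0 then 1 else if t ≤ 2 then -1 / 2 else if ω.1 = 1 then 1 else -1,
    if t ≤ 1 then 0 else sg ω.2]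

theorem hX (t : ℕ) : StronglyMeasurable (X t) := StronglyMeasurable.of_discrete

theorem mart {E : Type} [NormedAddCommGroup E] [NormedSpace ℝ E] [CompleteSpace E]
    (φ : (Fin 2 → ℝ) → E) (hφ : Continuous φ)
    (h0 : φ ![0, 0] = (1 / 3 : ℝ) • φ ![1, 0] + (2 / 3 : ℝ) • φ ![-1 / 2, 0])
    (h1 : ∀ a, φ ![a, 0] = (1 / 2 : ℝ) • φ ![a, 1] + (1 / 2 : ℝ) • φ ![a, -1])
    (h2 : ∀ b, φ ![-1 / 2, b] = (1 / 4 : ℝ) • φ ![1, b] + (3 / 4 : ℝ) • φ ![-1, b]) :
    Martingale (fun t ω => φ (X t ω)) (Filtration.natural X hX) P := by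
  haveI := P_prob
  refine martingale_of_setIntegral_eq_succ
    (fun t => hφ.comp_stronglyMeasurable (Filtration.stronglyAdapted_natural hX t))
    (fun _ => Integrable.of_finite) fun t s hs => ?_
  rw [Filtration.natural_eq_comap] at hs
  obtain ⟨T, -, hT⟩ := hs
  have key : ∀ ω ω', (∀ j ≤ t, X j ω = X j ω') → (ω ∈ s ↔ ω' ∈ s) := by
    intro ω ω' h
    rw [← hT, mem_preimage, mem_preimage, funext fun j : Iic t => h j j.2]
  rw [← integral_indicator MeasurableSet.of_discrete, ← integral_indicator MeasurableSet.of_discrete,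
    P_int, P_int]
  rcases t with _ | _ | _ | t
  · have : ∀ ω, ω ∈ s ↔ (0, true) ∈ s := fun ω => key _ _ fun j hj => by
      obtain rfl : j = 0 := by omega
      simp [X]
    by_cases h : (0, true) ∈ s <;>
      simp [indicator, this, h, Fintype.sum_prod_type, Fin.sum_univ_three, w, X, h0]
    module
  · have : ∀ a b, (a, b) ∈ s ↔ (a, true) ∈ s := fun a b => key _ _ fun j hj => by simp [X, hj]
    simp only [Fintype.sum_prod_type]
    refine Finset.sum_congr rfl fun a _ => ?_
    by_cases h : (a, true) ∈ s <;> simp [indicator, this a false, h, w, X, h1, sg]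
    module
  · have : ∀ b, (2, b) ∈ s ↔ (1, b) ∈ s := fun b => key _ _ fun j hj => by simp [X, hj]
    simp only [Fintype.sum_prod_type_right]
    refine Finset.sum_congr rfl fun b _ => ?_
    by_cases h : (1, b) ∈ s <;> simp [indicator, this b, h, w, X, h2, Fin.sum_univ_three]
    module
  · simp [indicator, X]

theorem result : ∃ (n : ℕ) (f : (Fin n → Bool) → Bool) (Ω : Type) (_ : MeasurableSpace Ω)
    (P : Measure Ω) (X : ℕ → Ω → Fin n → ℝ) (hX : ∀ t, StronglyMeasurable (X t))
    (Z : Ω → Fin n → Bool) (τ : Ω → ℕ) (A : (Fin n → ℝ) → ℝ),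
    IsProbabilityMeasure P ∧ IsFracAlg P X hX Z τ ∧ (∀ ω, A (X (τ ω) ω) = sg (f (Z ω))) ∧
    ∑ i, (∫ ω, X (τ ω) ω i ^ 2 ∂P) * inf f i < var f := by
  classical
  refine ⟨2, fun z => z 0 || z 1, Om, inferInstance, P, X, hX, fun ω => ![decide (ω.1 ≠ 2), ω.2],
    fun ω => if ω.1 = 0 then 1 else if ω.2 then 2 else 3,
    fun x => if x 0 = 1 ∨ x 1 = 1 then 1 else -1, P_prob, ⟨?_, ?_, ?_, ?_, ?_, ?_, ?_, ?_⟩, ?_, ?_⟩
  · intro t ω i
    fin_cases i <;> simp only [X, sg] <;> split_ifs <;> norm_num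
  · intro ω
    simp [X]
  · refine mart id continuous_id ?_ (fun a => ?_) (fun b => ?_) <;> ext i <;> fin_cases i <;>
      simp <;> ring
  · rintro ⟨a, b⟩
    refine tendsto_const_nhds.congr' ((eventually_ge_atTop 3).mono fun t ht => ?_)
    have h1 : t ≠ 0 := by omega
    have h2 : ¬ t ≤ 2 := by omega
    have h3 : ¬ t ≤ 1 := by omega
    ext i
    fin_cases i <;> fin_cases a <;> simp [X, sg, h1, h2, h3]
  · exact Measurable.of_discrete
  · intro z
    rw [P_apply]
    obtain ⟨a, b, rfl⟩ : ∃ a b, z = ![a, b] := ⟨z 0, z 1, by ext i; fin_cases i <;> rfl⟩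
    rw [← ENNReal.toReal_eq_toReal_iff' (by
      refine ENNReal.sum_ne_top.2 fun ω _ => ENNReal.mul_ne_top ENNReal.coe_ne_top ?_
      simp only [indicator]
      split_ifs <;> simp) (by simp)]
    cases a <;> cases b <;>
      simp [Fintype.sum_prod_type, Fin.sum_univ_three, w, indicator, ENNReal.toReal_add] <;> norm_num
  · intro t
    have h : MeasurableSet[Filtration.natural X hX t]
        (X t ⁻¹' {x | x 0 = 1 ∨ x 1 = 1 ∨ x 0 = -1}) :=
      (Filtration.stronglyAdapted_natural hX t).measurable (by measurability)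
    convert h using 1
    ext ⟨a, b⟩
    rw [mem_ofPred_eq, mem_preimage, mem_ofPred_eq]
    refine (WithTop.coe_le_coe (α := ℕ)).trans ?_
    rcases t with _ | _ | _ | t <;> fin_cases a <;> cases b <;> simp [X, sg] <;> norm_num
  · intro S
    refine mart (fun x => ∏ i ∈ S, x i) (by fun_prop) ?_ (fun a => ?_) (fun b => ?_) <;>
      fin_cases S <;> simp <;> ring
  · rintro ⟨a, b⟩
    fin_cases a <;> cases b <;> simp [X, sg] <;> norm_num
  · have e : ∀ g : (Fin 2 → Bool) → ℝ, ∑ z, g z =
        g ![true, true] + g ![true, false] + g ![false, true] + g ![false, false] := by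
      intro g
      rw [← (finTwoArrowEquiv Bool).symm.sum_comp]
      simp [Fintype.sum_prod_type, add_assoc]
    simp [P_int, inf, var, avg, e, Fintype.sum_prod_type, Fin.sum_univ_three, w, X, sg]
    norm_num

end Pool.Agent.Results.MP_ebdc6e_an.OrTwo
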